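import Pool.Agent.R166.GS.Series
import Pool.Agent.R840.GS.F

set_option autoImplicit false

/-!
# The Hilbert polynomial of a graded Gorenstein ring with invertible `O(1)`
-/

open Polynomial

namespace Pool.Agent.R166.GS

lemma natDegree_bin (n : ℕ) : (bin n).natDegree = n := by
  have h1 : ((n.factorial : ℚ)⁻¹) ≠ 0 := inv_ne_zero (by exact_mod_cast n.factorial_ne_zero)
  unfold bin
  rw [natDegree_C_mul h1, natDegree_rts]
  simp

lemma leadingCoeff_bin (n : ℕ) : (bin n).leadingCoeff = (n.factorial : ℚ)⁻¹ := by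
  unfold bin
  rw [leadingCoeff_mul, leadingCoeff_C, (monic_rts _ _).leadingCoeff, mul_one]

lemma coeff_bin_comp (n : ℕ) (a : ℚ) :
    ((bin n).comp (X - C a)).natDegree = n ∧
      ((bin n).comp (X - C a)).coeff n = (n.factorial : ℚ)⁻¹ := by
  have h1 : ((bin n).comp (X - C a)).natDegree = n := by
    rw [natDegree_comp, natDegree_X_sub_C, mul_one, natDegree_bin]
  refine ⟨h1, ?_⟩
  have h2 : ((bin n).comp (X - C a)).leadingCoeff = (n.factorial : ℚ)⁻¹ := by
    rw [leadingCoeff_comp (by rw [natDegree_X_sub_C]; exact one_ne_zero), leadingCoeff_X_sub_C,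
      one_pow, mul_one, leadingCoeff_bin]
  rwa [leadingCoeff, h1] at h2

/-- From the numerator of the Hilbert series to the Hilbert polynomial. -/
theorem isHilb_of_numerator {h : ℕ → ℕ} {n : ℕ} (Q : ℚ[X]) (hs : Q.natDegree ≤ n)
    (hrev : Q.reverse = Q) (hpos : 0 < Q.eval 1)
    (hH : PowerSeries.mk (fun t => (h t : ℚ)) * (1 - PowerSeries.X) ^ (n + 1) =
      (Q : PowerSeries ℚ)) :
    ∃ P : ℚ[X], IsHilb h n (n + 1 - Q.natDegree) P := by
  -- the Hilbert function
  have hh : ∀ t, (h t : ℚ) = ∑ j ∈ Finset.range (Q.natDegree + 1),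
      Q.coeff j * if j ≤ t then ((n + (t - j)).choose n : ℚ) else 0 := by
    intro t
    have h2 : PowerSeries.mk (fun t => (h t : ℚ)) =
        (Q : PowerSeries ℚ) * PowerSeries.mk fun k => ((n + k).choose n : ℚ) := by
      have h3 := PowerSeries.mk_add_choose_mul_one_sub_pow_eq_one ℚ n
      rw [← hH, mul_assoc, mul_comm ((1 - PowerSeries.X) ^ (n + 1)), h3, mul_one]
    have h4 := congrArg (PowerSeries.coeff t) h2
    rw [PowerSeries.coeff_mk, PowerSeries.coeff_mul,
      Finset.Nat.sum_antidiagonal_eq_sum_range_succ_mk] at h4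
    rw [h4]
    simp only [Polynomial.coeff_coe, PowerSeries.coeff_mk]
    have hM : ∀ M, t + 1 ≤ M → Q.natDegree + 1 ≤ M →
        ∑ j ∈ Finset.range (t + 1), Q.coeff j * ((n + (t - j)).choose n : ℚ) =
          ∑ j ∈ Finset.range (Q.natDegree + 1), Q.coeff j *
            if j ≤ t then ((n + (t - j)).choose n : ℚ) else 0 := by
      intro M h6 h7
      calc ∑ j ∈ Finset.range (t + 1), Q.coeff j * ((n + (t - j)).choose n : ℚ)
          = ∑ j ∈ Finset.range (t + 1), Q.coeff j *
            (if j ≤ t then ((n + (t - j)).choose n : ℚ) else 0) := by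
            refine Finset.sum_congr rfl fun j hj => ?_
            rw [Finset.mem_range] at hj
            rw [if_pos (by omega)]
        _ = ∑ j ∈ Finset.range M, Q.coeff j *
            (if j ≤ t then ((n + (t - j)).choose n : ℚ) else 0) := by
            refine Finset.sum_subset (Finset.range_subset_range.2 h6) fun j _ hj => ?_
            rw [Finset.mem_range] at hj
            rw [if_neg (by omega), mul_zero]
        _ = _ := by
            refine (Finset.sum_subset (Finset.range_subset_range.2 h7) fun j _ hj => ?_).symm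
            rw [Finset.mem_range] at hj
            rw [coeff_eq_zero_of_natDegree_lt (by omega), zero_mul]
    exact hM (max (t + 1) (Q.natDegree + 1)) (le_max_left _ _) (le_max_right _ _)
  -- the polynomial
  set R : ℚ[X] := ∑ j ∈ Finset.range (Q.natDegree + 1), C (Q.coeff j) * (bin n).comp (X - C (j : ℚ))
    with hR
  have hRn : R.coeff n = Q.eval 1 * (n.factorial : ℚ)⁻¹ := by
    rw [hR, finsetSum_coeff, eval_eq_sum_range, Finset.sum_mul]
    refine Finset.sum_congr rfl fun j _ => ?_
    rw [coeff_C_mul, (coeff_bin_comp n j).2, one_pow, mul_one]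
  have hRpos : 0 < R.coeff n := by
    rw [hRn]
    refine mul_pos hpos (inv_pos.2 ?_)
    exact_mod_cast n.factorial_pos
  have hRle : R.natDegree ≤ n := by
    rw [hR]
    refine natDegree_sum_le_of_forall_le _ _ fun j _ => ?_
    exact (natDegree_C_mul_le _ _).trans (coeff_bin_comp n j).1.le
  have hRdeg : R.natDegree = n := natDegree_eq_of_le_of_coeff_ne_zero hRle hRpos.ne'
  have hRlead : 0 < R.leadingCoeff := by
    rw [leadingCoeff, hRdeg]
    exact hRpos
  refine ⟨R, isHilb_of_series (N := Q.natDegree) hs Q.coeff (fun j hj => ?_) hh hRdeg hRlead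
    fun t ht => ?_⟩
  · conv_lhs => rw [← hrev]
    rw [coeff_reverse, revAt_le hj]
  · rw [hh, hR, eval_finsetSum]
    refine Finset.sum_congr rfl fun j hj => ?_
    rw [Finset.mem_range] at hj
    rw [eval_mul, eval_C, eval_comp, eval_sub, eval_X, eval_C, if_pos (by omega), ← bin_nat,
      Nat.cast_sub (by omega)]

open Pool.Agent.R840.GS in
/-- The Hilbert function of a graded Gorenstein ring with invertible `O(1)` and negative
`a`-invariant. -/
theorem exists_isHilb {k S : Type} [Field k] [CommRing S] [Algebra k S] (𝒮 : ℕ → Submodule k S)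
    [GradedAlgebra 𝒮] [IsNoetherianRing S] [∀ n, Module.Finite k (𝒮 n)]
    (h0 : ∀ x ∈ 𝒮 0, ∃ c : k, algebraMap k S c = x) (hinv : TwistInvertible 𝒮)
    {n : ℕ} {θ : Fin (n + 1) → S} {e : Fin (n + 1) → ℕ} {σ : ℕ} (h : GorData 𝒮 θ e σ)
    (ha : σ < ∑ i, e i) :
    σ + (n + 1) ≥ ∑ i, e i ∧ Module.finrank k (𝒮 0) = 1 ∧
      ∃ P : ℚ[X], IsHilb (fun t => Module.finrank k (𝒮 t)) n (∑ i, e i - σ) P := by
  have hnt : Nontrivial S := by
    obtain ⟨x, _, hx⟩ := h.top_mem
    refine ⟨⟨x, 0, ?_⟩⟩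
    rintro rfl
    exact hx (Ideal.zero_mem _)
  set I := Ideal.span (Set.range θ) with hI
  obtain ⟨n', r, r', G, G', hn, hG, hG'⟩ := two_eqs 𝒮 hinv
  have hN := H_poly 𝒮 (I := I) (M := σ + 1) (fun j hj x hx => h.top j (by omega) x hx)
  set N : Polynomial ℚ := ∑ n ∈ Finset.range (σ + 1), Polynomial.monomial n (hf 𝒮 I n : ℚ)
    with hNdef
  have hfull := H_full 𝒮 h
  rw [← hI, hN] at hfull
  have hprod : ((∏ i, (1 - Polynomial.X ^ e i) : Polynomial ℚ) : PowerSeries ℚ) =
      ∏ i, (1 - (PowerSeries.X : PowerSeries ℚ) ^ e i) := by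
    have h1 := map_prod (Polynomial.coeToPowerSeries.ringHom (R := ℚ))
      (fun i => (1 - Polynomial.X ^ e i : Polynomial ℚ)) Finset.univ
    rw [Polynomial.coeToPowerSeries.ringHom_apply] at h1
    rw [h1]
    refine Finset.prod_congr rfl fun i _ => ?_
    rw [Polynomial.coeToPowerSeries.ringHom_apply, Polynomial.coe_sub, Polynomial.coe_one,
      Polynomial.coe_pow, Polynomial.coe_X]
  obtain ⟨Q, hQ, hQE⟩ := exists_Q e h.pos (H 𝒮 ⊥) n' r r' G G' N hn hG hG'
    (by rw [hprod]; exact hfull)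
  set E : Polynomial ℚ := ∏ i, geo (e i) with hE
  -- coefficients of `N`
  have hNc : ∀ j, N.coeff j = if j ≤ σ then (hf 𝒮 I j : ℚ) else 0 := by
    intro j
    rw [hNdef, Polynomial.finsetSum_coeff]
    simp only [Polynomial.coeff_monomial]
    rw [Finset.sum_ite_eq' (Finset.range (σ + 1)) j]
    simp only [Finset.mem_range, Nat.lt_succ_iff]
  have hb0 : hf 𝒮 I 0 = 1 := hf_bot_zero 𝒮 h0 I fun x hx hxI => zero_of_mem 𝒮 h hx hxI
  have hbσ : hf 𝒮 I σ = 1 := by
    rw [hf_symm 𝒮 h (show σ + 0 = σ by omega), hb0]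
  have hNdeg : N.natDegree = σ := by
    apply Polynomial.natDegree_eq_of_le_of_coeff_ne_zero
    · rw [Polynomial.natDegree_le_iff_coeff_eq_zero]
      intro j hj
      rw [hNc, if_neg (by omega)]
    · rw [hNc, if_pos le_rfl, hbσ]
      norm_num
  have hNrev : N.reverse = N := by
    refine reverse_eq hNdeg ?_
    intro a b hab
    rw [hNc, hNc, if_pos (by omega), if_pos (by omega), hf_symm 𝒮 h hab]
  have hErev : E.reverse = E := by
    rw [hE]
    refine Finset.prod_induction (fun i => geo (e i)) (fun p => p.reverse = p) ?_ ?_ ?_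
    · intro a b ha hb
      rw [Polynomial.reverse_mul_of_domain, ha, hb]
    · exact reverse_eq (s := 0) Polynomial.natDegree_one fun a b hab => by
        obtain rfl : a = 0 := by omega
        obtain rfl : b = 0 := by omega
        rfl
    · intro i _
      exact geo_reverse (h.pos i)
  have hEne : E ≠ 0 := Finset.prod_ne_zero_iff.2 fun i _ => geo_ne_zero (h.pos i)
  have hEdeg : E.natDegree = ∑ i, (e i - 1) := by
    rw [hE, Polynomial.natDegree_prod _ _ fun i _ => geo_ne_zero (h.pos i)]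
    exact Finset.sum_congr rfl fun i _ => geo_natDegree (h.pos i)
  have hNne : N ≠ 0 := by
    intro h1
    have := hNc 0
    rw [h1, if_pos (Nat.zero_le _), hb0] at this
    simp at this
  have hQne : Q ≠ 0 := by
    rintro rfl
    exact hNne (by rw [← hQE, zero_mul])
  have hE1pos : 0 < E.eval 1 := by
    rw [hE, Polynomial.eval_prod]
    refine Finset.prod_pos fun i _ => ?_
    rw [geo_eval]
    exact_mod_cast h.pos i
  have hN1pos : 0 < N.eval 1 := by
    have hN1 : N.eval 1 = ∑ n ∈ Finset.range (σ + 1), (hf 𝒮 I n : ℚ) := by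
      rw [hNdef, Polynomial.eval_finsetSum]
      simp
    rw [hN1]
    refine Finset.sum_pos' (fun i _ => Nat.cast_nonneg _) ⟨0, by simp, ?_⟩
    rw [hb0]
    norm_num
  have hQ1 : Q.eval 1 * E.eval 1 = N.eval 1 := by
    rw [← Polynomial.eval_mul, hQE]
  have hQ1pos : 0 < Q.eval 1 := by
    by_contra hcon
    have : Q.eval 1 * E.eval 1 ≤ 0 := mul_nonpos_of_nonpos_of_nonneg (not_lt.1 hcon) hE1pos.le
    rw [hQ1] at this
    exact absurd hN1pos (not_lt.2 this)
  have hQrev : Q.reverse = Q := by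
    have h1 : Q.reverse * E = Q * E := by
      nth_rewrite 1 [← hErev]
      rw [← Polynomial.reverse_mul_of_domain, hQE, hNrev]
    exact mul_right_cancel₀ hEne h1
  have hQdeg : Q.natDegree + ∑ i, (e i - 1) = σ := by
    rw [← hEdeg, ← Polynomial.natDegree_mul hQne hEne, hQE, hNdeg]
  have hbot : ∀ j, hf 𝒮 ⊥ j = Module.finrank k (𝒮 j) := by
    intro j
    have hp : part 𝒮 (⊥ : Ideal S) j = ⊥ := by
      rw [eq_bot_iff]
      intro x hx
      exact Subtype.ext hx
    unfold hf
    rw [hp, (Submodule.quotEquivOfEqBot _ rfl).finrank_eq]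
  have hbot0 : Module.finrank k (𝒮 0) = 1 := by
    rw [← hbot, hf_bot_zero 𝒮 h0 ⊥ fun x _ hx => hx]
  have hsum : ∑ i, (e i - 1) + (n + 1) = ∑ i, e i := by
    have h1 : ∑ i : Fin (n + 1), (e i - 1) + ∑ _i : Fin (n + 1), 1 = ∑ i, e i := by
      rw [← Finset.sum_add_distrib]
      exact Finset.sum_congr rfl fun i _ => by have := h.pos i; omega
    simpa using h1
  have hH : PowerSeries.mk (fun t => (Module.finrank k (𝒮 t) : ℚ)) *
      (1 - PowerSeries.X) ^ (n + 1) = (Q : PowerSeries ℚ) := by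
    rw [← hQ, Polynomial.coe_sub, Polynomial.coe_one, Polynomial.coe_X, mul_comm]
    congr 1
    ext t
    unfold H
    rw [PowerSeries.coeff_mk, PowerSeries.coeff_mk, hbot]
  obtain ⟨P, hP⟩ := isHilb_of_numerator Q (by omega) hQrev hQ1pos hH
  refine ⟨by omega, hbot0, P, ?_⟩
  have hr : n + 1 - Q.natDegree = ∑ i, e i - σ := by omega
  rwa [hr] at hP

end Pool.Agent.R166.GS
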