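import Mathlib

set_option autoImplicit false

/-!
# Polynomials with a symmetry and many integral zeros
-/

open Polynomial

namespace Pool.Agent.R166.GS

/-- `P` is the Hilbert polynomial of a graded Gorenstein ring with Hilbert function `h`, dimension
`n + 1` and `a`-invariant `-r`: it has degree `n` and positive leading coefficient, it gives the
Hilbert function in all degrees greater than `-r`, and `P (-r - t) = (-1) ^ n P (t)`. -/
structure IsHilb (h : ℕ → ℕ) (n r : ℕ) (P : ℚ[X]) : Prop where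
  deg : P.natDegree = n
  lead : 0 < P.leadingCoeff
  pos : ∀ m : ℕ, P.eval (m : ℚ) = h m
  neg : ∀ j : ℕ, 0 < j → j < r → P.eval (-(j : ℚ)) = 0
  symm : P.comp (-C (r : ℚ) - X) = C ((-1) ^ n) * P

variable {h : ℕ → ℕ} {n r : ℕ} {P : ℚ[X]}

/-- the known zeros of the polynomial if `h` vanishes in the degrees in `Z` -/
noncomputable def rts (r : ℕ) (Z : Finset ℕ) : ℚ[X] :=
  (∏ j ∈ Finset.range (r - 1), (X + C ((j : ℚ) + 1))) *
    ((∏ i ∈ Z, (X - C (i : ℚ))) * ∏ i ∈ Z, (X + C ((r : ℚ) + i)))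

lemma monic_rts (r : ℕ) (Z : Finset ℕ) : (rts r Z).Monic := by
  unfold rts
  refine (monic_prod_of_monic _ _ fun j _ => monic_X_add_C _).mul
    ((monic_prod_of_monic _ _ fun j _ => monic_X_sub_C _).mul
      (monic_prod_of_monic _ _ fun j _ => monic_X_add_C _))

lemma natDegree_rts (r : ℕ) (Z : Finset ℕ) : (rts r Z).natDegree = (r - 1) + 2 * Z.card := by
  unfold rts
  rw [Polynomial.Monic.natDegree_mul (monic_prod_of_monic _ _ fun j _ => monic_X_add_C _)
    ((monic_prod_of_monic _ _ fun j _ => monic_X_sub_C _).mul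
      (monic_prod_of_monic _ _ fun j _ => monic_X_add_C _)),
    Polynomial.Monic.natDegree_mul (monic_prod_of_monic _ _ fun j _ => monic_X_sub_C _)
      (monic_prod_of_monic _ _ fun j _ => monic_X_add_C _),
    natDegree_prod_of_monic _ _ fun j _ => monic_X_add_C _,
    natDegree_prod_of_monic _ _ fun j _ => monic_X_sub_C _,
    natDegree_prod_of_monic _ _ fun j _ => monic_X_add_C _]
  simp only [natDegree_X_add_C, natDegree_X_sub_C, Finset.sum_const, Finset.card_range,
    smul_eq_mul, mul_one]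
  ring

lemma eval_rts_zero (r : ℕ) (Z : Finset ℕ) (hZ : ∀ z ∈ Z, 0 < z) :
    ∃ u : ℚ, 0 < u ∧ (rts r Z).eval 0 = (-1) ^ Z.card * u := by
  refine ⟨(∏ j ∈ Finset.range (r - 1), ((j : ℚ) + 1)) *
    ((∏ i ∈ Z, (i : ℚ)) * ∏ i ∈ Z, ((r : ℚ) + i)), ?_, ?_⟩
  · refine mul_pos (Finset.prod_pos fun j _ => by positivity)
      (mul_pos (Finset.prod_pos fun j hj => by exact_mod_cast hZ j hj)
        (Finset.prod_pos fun j hj => by
          have h1 : (0 : ℚ) < j := by exact_mod_cast hZ j hj
          positivity))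
  · unfold rts
    simp only [eval_mul, eval_prod, eval_add, eval_sub, eval_X, eval_C, zero_add, zero_sub]
    rw [Finset.prod_neg]
    ring

/-- the polynomial is divisible by the product of its known zeros -/
lemma rts_dvd (hP : IsHilb h n r P) (hr : 0 < r) {Z : Finset ℕ} (hZ : ∀ z ∈ Z, 0 < z)
    (hm : ∀ z ∈ Z, h z = 0) : rts r Z ∣ P := by
  have hsym : ∀ t : ℚ, P.eval (-(r : ℚ) - t) = (-1) ^ n * P.eval t := by
    intro t
    have h1 := congrArg (Polynomial.eval t) hP.symm
    simpa [eval_comp] using h1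
  let f : Fin (r - 1) ⊕ (Z ⊕ Z) → ℚ
    | .inl j => -((j : ℚ) + 1)
    | .inr (.inl i) => ((i : ℕ) : ℚ)
    | .inr (.inr i) => -((r : ℚ) + (i : ℕ))
  have hf : Function.Injective f := by
    have hr1 : (1 : ℚ) ≤ r := by exact_mod_cast hr
    rintro (a | a | a) (b | b | b) hab
    · simp only [f] at hab
      have : (a : ℚ) = b := by linarith
      congr 1
      exact Fin.ext (by exact_mod_cast this)
    · exfalso
      simp only [f] at hab
      have h1 : (0 : ℚ) ≤ (a : ℚ) := by positivity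
      have h2 : (0 : ℚ) < ((b : ℕ) : ℚ) := by exact_mod_cast hZ b b.2
      linarith
    · exfalso
      simp only [f] at hab
      have h1 : ((a : ℕ) : ℚ) + 1 ≤ ((r - 1 : ℕ) : ℚ) := by exact_mod_cast a.2
      have h2 : (0 : ℚ) < ((b : ℕ) : ℚ) := by exact_mod_cast hZ b b.2
      rw [Nat.cast_sub hr] at h1
      push_cast at h1
      linarith
    · exfalso
      simp only [f] at hab
      have h1 : (0 : ℚ) < ((a : ℕ) : ℚ) := by exact_mod_cast hZ a a.2
      have h2 : (0 : ℚ) ≤ (b : ℚ) := by positivity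
      linarith
    · simp only [f] at hab
      congr 2
      exact Subtype.ext (by exact_mod_cast hab)
    · exfalso
      simp only [f] at hab
      have h1 : (0 : ℚ) < ((a : ℕ) : ℚ) := by exact_mod_cast hZ a a.2
      have h2 : (0 : ℚ) < ((b : ℕ) : ℚ) := by exact_mod_cast hZ b b.2
      linarith
    · exfalso
      simp only [f] at hab
      have h1 : ((b : ℕ) : ℚ) + 1 ≤ ((r - 1 : ℕ) : ℚ) := by exact_mod_cast b.2
      have h2 : (0 : ℚ) < ((a : ℕ) : ℚ) := by exact_mod_cast hZ a a.2
      rw [Nat.cast_sub hr] at h1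
      push_cast at h1
      linarith
    · exfalso
      simp only [f] at hab
      have h1 : (0 : ℚ) < ((a : ℕ) : ℚ) := by exact_mod_cast hZ a a.2
      have h2 : (0 : ℚ) < ((b : ℕ) : ℚ) := by exact_mod_cast hZ b b.2
      linarith
    · simp only [f] at hab
      have : ((a : ℕ) : ℚ) = (b : ℕ) := by linarith
      congr 2
      exact Subtype.ext (by exact_mod_cast this)
  have hroot : ∀ x, P.eval (f x) = 0 := by
    rintro (a | a | a)
    · have h1 := hP.neg (a + 1) (Nat.succ_pos _) (by omega)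
      push_cast at h1
      exact h1
    · have h1 := hP.pos a
      rw [hm a a.2, Nat.cast_zero] at h1
      exact h1
    · have h1 := hP.pos a
      rw [hm a a.2, Nat.cast_zero] at h1
      have h2 := hsym (a : ℕ)
      rw [h1, mul_zero] at h2
      rw [← h2]
      congr 1
      simp only [f]
      ring
  have hprod : rts r Z = ∏ x, (X - C (f x)) := by
    rw [Fintype.prod_sum_type, Fintype.prod_sum_type]
    unfold rts
    simp only [f]
    congr 1
    · rw [← Fin.prod_univ_eq_prod_range (fun j => (X + C ((j : ℚ) + 1) : ℚ[X]))]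
      refine Finset.prod_congr rfl fun j _ => ?_
      rw [map_neg, sub_neg_eq_add]
    · congr 1
      · rw [← Finset.prod_coe_sort]
      · rw [← Finset.prod_coe_sort]
        refine Finset.prod_congr rfl fun j _ => ?_
        rw [map_neg, sub_neg_eq_add]
  rw [hprod]
  refine Finset.prod_dvd_of_coprime ?_ fun x _ => dvd_iff_isRoot.2 (hroot x)
  intro x _ y _ hxy
  exact isCoprime_X_sub_C_of_isUnit_sub (sub_ne_zero.2 fun h => hxy (hf h)).isUnit

lemma comp_rts (r : ℕ) (Z : Finset ℕ) (hr : 0 < r) :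
    (rts r Z).comp (-C (r : ℚ) - X) = C ((-1) ^ (r - 1)) * rts r Z := by
  unfold rts
  rw [mul_comp, mul_comp, prod_comp, prod_comp, prod_comp]
  have h1 : ∏ j ∈ Finset.range (r - 1), (X + C ((j : ℚ) + 1)).comp (-C (r : ℚ) - X) =
      C ((-1) ^ (r - 1)) * ∏ j ∈ Finset.range (r - 1), (X + C ((j : ℚ) + 1)) := by
    rw [← Finset.prod_range_reflect (fun j => (X + C ((j : ℚ) + 1) : ℚ[X]))]
    have h2 : (C ((-1) ^ (r - 1)) : ℚ[X]) = ∏ _j ∈ Finset.range (r - 1), (-1 : ℚ[X]) := by
      rw [Finset.prod_const, Finset.card_range]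
      simp
    rw [h2, ← Finset.prod_mul_distrib]
    refine Finset.prod_congr rfl fun j hj => ?_
    rw [Finset.mem_range] at hj
    have h3 : ((r - 1 - 1 - j : ℕ) : ℚ) = (r : ℚ) - 1 - 1 - j := by
      rw [Nat.cast_sub (by omega), Nat.cast_sub (by omega), Nat.cast_sub (by omega)]
      simp
    rw [h3, add_comp, X_comp, C_comp]
    simp only [map_add, map_sub, map_one]
    ring
  have h4 : ∏ i ∈ Z, (X - C (i : ℚ)).comp (-C (r : ℚ) - X) =
      C ((-1) ^ Z.card) * ∏ i ∈ Z, (X + C ((r : ℚ) + i)) := by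
    have h2 : (C ((-1) ^ Z.card) : ℚ[X]) = ∏ _j ∈ Z, (-1 : ℚ[X]) := by
      rw [Finset.prod_const]
      simp
    rw [h2, ← Finset.prod_mul_distrib]
    refine Finset.prod_congr rfl fun j hj => ?_
    rw [sub_comp, X_comp, C_comp]
    simp only [map_add]
    ring
  have h5 : ∏ i ∈ Z, (X + C ((r : ℚ) + i)).comp (-C (r : ℚ) - X) =
      C ((-1) ^ Z.card) * ∏ i ∈ Z, (X - C (i : ℚ)) := by
    have h2 : (C ((-1) ^ Z.card) : ℚ[X]) = ∏ _j ∈ Z, (-1 : ℚ[X]) := by
      rw [Finset.prod_const]
      simp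
    rw [h2, ← Finset.prod_mul_distrib]
    refine Finset.prod_congr rfl fun j hj => ?_
    rw [add_comp, X_comp, C_comp]
    simp only [map_add]
    ring
  rw [h1, h4, h5]
  have h6 : (C ((-1) ^ Z.card) * C ((-1) ^ Z.card) : ℚ[X]) = 1 := by
    rw [← C_mul, ← mul_pow]
    simp
  linear_combination (C ((-1) ^ (r - 1)) * (∏ j ∈ Finset.range (r - 1), (X + C ((j : ℚ) + 1))) *
    ((∏ i ∈ Z, (X - C (i : ℚ))) * ∏ i ∈ Z, (X + C ((r : ℚ) + i)))) * h6

/-- the cofactor of the known zeros -/
lemma exists_cofactor (hP : IsHilb h n r P) (hr : 0 < r) {Z : Finset ℕ} (hZ : ∀ z ∈ Z, 0 < z)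
    (hm : ∀ z ∈ Z, h z = 0) :
    ∃ G : ℚ[X], P = rts r Z * G ∧ 0 < G.leadingCoeff ∧ (r - 1) + 2 * Z.card + G.natDegree = n ∧
      ∀ t : ℚ, G.eval (-(r : ℚ) - t) = (-1) ^ G.natDegree * G.eval t := by
  obtain ⟨G, hG⟩ := rts_dvd hP hr hZ hm
  have hlead : P.leadingCoeff = G.leadingCoeff := by
    rw [hG, leadingCoeff_mul, (monic_rts r Z).leadingCoeff, one_mul]
  have hG0 : G ≠ 0 := by
    rintro rfl
    have := hP.lead
    rw [hlead, leadingCoeff_zero] at this
    exact lt_irrefl _ this
  have hdeg : (r - 1) + 2 * Z.card + G.natDegree = n := by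
    rw [← hP.deg, hG, natDegree_mul (monic_rts r Z).ne_zero hG0, natDegree_rts]
  refine ⟨G, hG, hlead ▸ hP.lead, hdeg, fun t => ?_⟩
  have h1 := hP.symm
  rw [hG, mul_comp, comp_rts r Z hr, mul_assoc, mul_left_comm (C ((-1) ^ n))] at h1
  have h2 : C ((-1) ^ (r - 1)) * (G.comp (-C (r : ℚ) - X)) * rts r Z =
      (C ((-1) ^ n) * G) * rts r Z := by
    linear_combination h1
  have h3 := mul_right_cancel₀ (monic_rts r Z).ne_zero h2
  have h4 := congrArg (Polynomial.eval t) h3
  simp only [eval_mul, eval_C, eval_comp, eval_sub, eval_neg, eval_X] at h4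
  have h5 : ((-1 : ℚ) ^ (r - 1)) * (-1) ^ (r - 1) = 1 := by
    rw [← mul_pow]
    simp
  have h6 : ((-1 : ℚ) ^ (r - 1)) * (-1) ^ n = (-1) ^ G.natDegree := by
    rw [← hdeg, ← pow_add, show (r - 1) + ((r - 1) + 2 * Z.card + G.natDegree) =
      2 * ((r - 1) + Z.card) + G.natDegree by ring, pow_add, pow_mul]
    simp
  calc G.eval (-(r : ℚ) - t) =
      (((-1 : ℚ) ^ (r - 1)) * (-1) ^ (r - 1)) * G.eval (-(r : ℚ) - t) := by rw [h5, one_mul]
    _ = ((-1 : ℚ) ^ (r - 1)) * ((-1) ^ n * G.eval t) := by rw [mul_assoc, h4]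
    _ = (-1) ^ G.natDegree * G.eval t := by rw [← mul_assoc, h6]

lemma eval_cubic {G : ℚ[X]} (hG : G.natDegree < 4) (x : ℚ) :
    G.eval x = G.coeff 0 + G.coeff 1 * x + G.coeff 2 * x ^ 2 + G.coeff 3 * x ^ 3 := by
  rw [eval_eq_sum_range' hG]
  simp [Finset.sum_range_succ]

/-- **The bound.** If the Hilbert function vanishes in `m` positive degrees, then
`2 m ≤ n + 1 - r`, and if `n + 1 - r ≤ 2 m + 1` then `m` is even. -/
theorem bound (hP : IsHilb h n r P) (hr : 0 < r) (h0 : h 0 = 1) {Z : Finset ℕ}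
    (hZ : ∀ z ∈ Z, 0 < z) (hm : ∀ z ∈ Z, h z = 0) :
    r + 2 * Z.card ≤ n + 1 ∧ (n + 1 ≤ r + 2 * Z.card + 1 → Even Z.card) := by
  obtain ⟨G, hG, hlead, hdeg, hsym⟩ := exists_cofactor hP hr hZ hm
  refine ⟨by omega, fun hle => ?_⟩
  have hr0 : (0 : ℚ) < r := by exact_mod_cast hr
  -- the value of the cofactor at `0` is positive
  have hpos : 0 < G.eval 0 := by
    have hcase : G.natDegree = 0 ∨ G.natDegree = 1 := by omega
    have he := fun x => eval_cubic (G := G) (by omega) x
    rcases hcase with hd | hd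
    · have h1 := hlead
      rw [leadingCoeff, hd] at h1
      have h2 : G.coeff 1 = 0 := coeff_eq_zero_of_natDegree_lt (by omega)
      rw [he]
      simpa using h1
    · have h1 := hlead
      rw [leadingCoeff, hd] at h1
      have h2 : G.coeff 2 = 0 := coeff_eq_zero_of_natDegree_lt (by omega)
      have h3 : G.coeff 3 = 0 := coeff_eq_zero_of_natDegree_lt (by omega)
      have h4 := hsym 0
      rw [hd, he, he, h2, h3] at h4
      rw [he, h2, h3]
      have h5 : 0 < G.coeff 1 * r := mul_pos h1 hr0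
      have h6 : G.coeff 0 = G.coeff 1 * r / 2 := by
        simp only [pow_one, sub_zero] at h4
        linarith
      rw [h6]
      linarith
  obtain ⟨u, hu, hu0⟩ := eval_rts_zero r Z hZ
  have h1 := hP.pos 0
  rw [h0, hG, Nat.cast_zero, eval_mul, hu0, Nat.cast_one] at h1
  by_contra hodd
  rw [Nat.not_even_iff_odd] at hodd
  rw [hodd.neg_one_pow] at h1
  have h2 : 0 < u * G.eval 0 := mul_pos hu hpos
  linarith

/-- the number of positive degrees in which the Hilbert function vanishes -/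
theorem card_zeros (hP : IsHilb h n r P) (hr : 0 < r) (h0 : h 0 = 1) :
    r ≤ n + 1 ∧ ∀ Z : Finset ℕ, (∀ z ∈ Z, 0 < z ∧ h z = 0) → Z.card ≤ 2 * ((n + 1 - r) / 4) := by
  refine ⟨?_, fun Z hZ => ?_⟩
  · have := (bound hP hr h0 (Z := ∅) (by simp) (by simp)).1
    omega
  · obtain ⟨h1, h2⟩ := bound hP hr h0 (fun z hz => (hZ z hz).1) (fun z hz => (hZ z hz).2)
    rw [Nat.even_iff] at h2
    omega

/-- If the degrees in which the Hilbert function does not vanish are closed under addition then it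
does not vanish in any degree `≥ 4 ⌊(n + 1 - r) / 4⌋`. -/
theorem ne_zero_of_le (hP : IsHilb h n r P) (hr : 0 < r) (h0 : h 0 = 1)
    (hadd : ∀ i j, h i ≠ 0 → h j ≠ 0 → h (i + j) ≠ 0) {m : ℕ} (hm : 4 * ((n + 1 - r) / 4) ≤ m) :
    h m ≠ 0 := by
  intro hcon
  have hm0 : m ≠ 0 := by
    rintro rfl
    omega
  have h1 := (card_zeros hP hr h0).2 ((Finset.range (m + 1)).filter fun z => h z = 0) (by
    intro z hz
    rw [Finset.mem_filter] at hz
    refine ⟨Nat.pos_of_ne_zero ?_, hz.2⟩
    rintro rfl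
    omega)
  -- one of `i`, `m - i` is a zero
  have h2 : (Finset.range (m + 1)).card ≤
      2 * ((Finset.range (m + 1)).filter fun z => h z = 0).card := by
    have h3 : Finset.range (m + 1) ⊆ ((Finset.range (m + 1)).filter fun z => h z = 0) ∪
        ((Finset.range (m + 1)).filter fun z => h z = 0).image (fun z => m - z) := by
      intro i hi
      rw [Finset.mem_range] at hi
      rw [Finset.mem_union, Finset.mem_filter, Finset.mem_image]
      by_cases hi0 : h i = 0
      · exact Or.inl ⟨Finset.mem_range.2 hi, hi0⟩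
      · refine Or.inr ⟨m - i, Finset.mem_filter.2 ⟨Finset.mem_range.2 (by omega), ?_⟩, by omega⟩
        by_contra hi1
        refine hadd i (m - i) hi0 hi1 ?_
        rw [show i + (m - i) = m by omega]
        exact hcon
    refine (Finset.card_le_card h3).trans ((Finset.card_union_le _ _).trans ?_)
    rw [two_mul]
    exact Nat.add_le_add_left Finset.card_image_le _
  rw [Finset.card_range] at h2
  omega

lemma prod_shift (k : ℕ) : ∏ j ∈ Finset.range k, ((j : ℚ) + 1 + 1) =
    (k + 1) * ∏ j ∈ Finset.range k, ((j : ℚ) + 1) := by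
  induction k with
  | zero => simp
  | succ k ih =>
    rw [Finset.prod_range_succ, Finset.prod_range_succ, ih]
    push_cast
    ring

/-- the number of elements of degree one, if `n + 1 - r ≤ 3` -/
theorem degree_one (hP : IsHilb h n r P) (hr : 0 < r) (h0 : h 0 = 1) :
    (n + 1 = r → h 1 = n + 1) ∧ (n + 1 = r + 1 → h 1 = n + 2) ∧
      (n + 1 = r + 2 → n ≤ h 1) ∧ (n + 1 = r + 3 → n + 1 ≤ h 1) := by
  obtain ⟨G, hG, hlead, hdeg, hsym⟩ := exists_cofactor hP hr (Z := ∅) (by simp) (by simp)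
  rw [Finset.card_empty] at hdeg
  have hr0 : (0 : ℚ) < r := by exact_mod_cast hr
  obtain ⟨u, hu, hu1⟩ : ∃ u : ℚ, 0 < u ∧ (rts r ∅).eval 0 = u ∧ (rts r ∅).eval 1 = r * u := by
    refine ⟨∏ j ∈ Finset.range (r - 1), ((j : ℚ) + 1),
      Finset.prod_pos fun j _ => by positivity, ?_, ?_⟩
    · unfold rts
      simp [eval_prod]
    · unfold rts
      simp only [Finset.prod_empty, mul_one, eval_prod, eval_add, eval_X, eval_C]
      have h1 := prod_shift (r - 1)
      have h2 : ((r - 1 : ℕ) : ℚ) + 1 = r := by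
        rw [Nat.cast_sub hr]
        simp
      rw [h2] at h1
      rw [← h1]
      exact Finset.prod_congr rfl fun j _ => by ring
  have e0 : u * G.eval 0 = 1 := by
    have h1 := hP.pos 0
    rw [h0, hG, Nat.cast_zero, eval_mul, hu1.1, Nat.cast_one] at h1
    exact h1
  have e1 : (h 1 : ℚ) = r * (u * G.eval 1) := by
    have h1 := hP.pos 1
    rw [hG, Nat.cast_one, eval_mul, hu1.2] at h1
    rw [← h1]
    ring
  have s0 := hsym 0
  have s1 := hsym 1
  refine ⟨fun hn => ?_, fun hn => ?_, fun hn => ?_, fun hn => ?_⟩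
  · have hd : G.natDegree = 0 := by omega
    have he := fun x => eval_cubic (G := G) (by omega) x
    have z1 : G.coeff 1 = 0 := coeff_eq_zero_of_natDegree_lt (by omega)
    have z2 : G.coeff 2 = 0 := coeff_eq_zero_of_natDegree_lt (by omega)
    have z3 : G.coeff 3 = 0 := coeff_eq_zero_of_natDegree_lt (by omega)
    rw [he, z1, z2, z3] at e0 e1
    have : (h 1 : ℚ) = r := by
      rw [e1]
      linear_combination (r : ℚ) * e0
    have h2 : h 1 = r := by exact_mod_cast this
    omega
  · have hd : G.natDegree = 1 := by omega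
    have he := fun x => eval_cubic (G := G) (by omega) x
    have z2 : G.coeff 2 = 0 := coeff_eq_zero_of_natDegree_lt (by omega)
    have z3 : G.coeff 3 = 0 := coeff_eq_zero_of_natDegree_lt (by omega)
    rw [hd, he, he, z2, z3] at s0
    rw [he, z2, z3] at e0 e1
    have : (h 1 : ℚ) = r + 2 := by
      rw [e1]
      linear_combination (r + 2 : ℚ) * e0 - u * s0
    have h2 : h 1 = r + 2 := by exact_mod_cast this
    omega
  · have hd : G.natDegree = 2 := by omega
    have he := fun x => eval_cubic (G := G) (by omega) x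
    have z3 : G.coeff 3 = 0 := coeff_eq_zero_of_natDegree_lt (by omega)
    have hc := hlead
    rw [leadingCoeff, hd] at hc
    rw [hd, he, he, z3] at s0
    rw [he, z3] at e0 e1
    have hb : G.coeff 1 = G.coeff 2 * r := by
      have h3 : (r : ℚ) * G.coeff 1 = r * (G.coeff 2 * r) := by linear_combination -s0
      exact mul_left_cancel₀ hr0.ne' h3
    have : (h 1 : ℚ) = r + r * (r + 1) * (u * G.coeff 2) := by
      rw [e1, hb]
      linear_combination (r : ℚ) * e0
    have h4 : (r : ℚ) < h 1 := by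
      rw [this]
      have : 0 < (r : ℚ) * (r + 1) * (u * G.coeff 2) := by positivity
      linarith
    have h2 : r < h 1 := by exact_mod_cast h4
    omega
  · have hd : G.natDegree = 3 := by omega
    have he := fun x => eval_cubic (G := G) (by omega) x
    have hc := hlead
    rw [leadingCoeff, hd] at hc
    rw [hd, he, he] at s0 s1
    rw [he] at e0 e1
    have hb : G.coeff 2 = 3 * G.coeff 3 * r / 2 := by
      have h3 : (2 * r + 2 : ℚ) * G.coeff 2 = (2 * r + 2) * (3 * G.coeff 3 * r / 2) := by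
        linear_combination s1 - s0
      exact mul_left_cancel₀ (by positivity) h3
    have ha : r * G.coeff 1 = r * (G.coeff 3 * r ^ 2 / 2) + 2 * G.coeff 0 := by
      rw [hb] at s0
      linear_combination -s0
    have : (h 1 : ℚ) = (r + 2) + r * (r + 1) * (r + 2) / 2 * (u * G.coeff 3) := by
      rw [e1, hb]
      linear_combination (r + 2 : ℚ) * e0 + u * ha
    have h4 : (r : ℚ) + 2 < h 1 := by
      rw [this]
      have : 0 < (r : ℚ) * (r + 1) * (r + 2) / 2 * (u * G.coeff 3) := by positivity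
      linarith
    have h2 : r + 2 < h 1 := by exact_mod_cast h4
    omega

end Pool.Agent.R166.GS
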