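import Pool.Agent.R166.GS.Poly

set_option autoImplicit false

/-!
# Symmetric rational functions with a pole at `1` and their Hilbert polynomials
-/

open Polynomial

namespace Pool.Agent.R166.GS

/-- the polynomial `binom (X + n) n` -/
noncomputable def bin (n : ℕ) : ℚ[X] := C ((n.factorial : ℚ)⁻¹) * rts (n + 1) ∅

lemma bin_eval (n : ℕ) (x : ℚ) :
    (bin n).eval x = (n.factorial : ℚ)⁻¹ * ∏ j ∈ Finset.range n, (x + (j + 1)) := by
  unfold bin rts
  simp [eval_prod]

lemma bin_nat (n t : ℕ) : (bin n).eval (t : ℚ) = ((n + t).choose n : ℚ) := by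
  rw [bin_eval]
  have h1 := Nat.ascFactorial_eq_factorial_mul_choose t n
  rw [Nat.ascFactorial_eq_prod_range] at h1
  have h2 : (∏ j ∈ Finset.range n, ((t : ℚ) + (j + 1))) =
      ((∏ i ∈ Finset.range n, (t + 1 + i) : ℕ) : ℚ) := by
    rw [Nat.cast_prod]
    refine Finset.prod_congr rfl fun j _ => ?_
    push_cast
    ring
  rw [h2, h1, Nat.cast_mul, add_comm t n]
  have h3 : (n.factorial : ℚ) ≠ 0 := by exact_mod_cast n.factorial_ne_zero
  field_simp

lemma bin_neg (n j : ℕ) (h0 : 0 < j) (hj : j ≤ n) : (bin n).eval (-(j : ℚ)) = 0 := by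
  rw [bin_eval]
  have h1 : ∏ i ∈ Finset.range n, (-(j : ℚ) + (i + 1)) = 0 := by
    refine Finset.prod_eq_zero (Finset.mem_range.2 (show j - 1 < n by omega)) ?_
    rw [Nat.cast_sub h0]
    simp
  rw [h1, mul_zero]

lemma bin_symm (n : ℕ) (x : ℚ) :
    (bin n).eval (-((n : ℚ) + 1) - x) = (-1) ^ n * (bin n).eval x := by
  have h1 := comp_rts (n + 1) ∅ (Nat.succ_pos n)
  have h2 := congrArg (Polynomial.eval x) h1
  simp only [eval_comp, eval_sub, eval_neg, eval_C, eval_X, eval_mul] at h2
  unfold bin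
  simp only [eval_mul, eval_C]
  push_cast at h2
  rw [h2]
  ring

/-- If the Hilbert series is `Q / (1 - t) ^ (n + 1)` for a polynomial `Q` which is equal to its
reversal of degree `s ≤ n`, and the Hilbert function is eventually a polynomial of degree `n`, then
`IsHilb`. -/
theorem isHilb_of_series {h : ℕ → ℕ} {n s : ℕ} (hs : s ≤ n) (q : ℕ → ℚ)
    (hq : ∀ j ≤ s, q j = q (s - j))
    (hh : ∀ t, (h t : ℚ) = ∑ j ∈ Finset.range (s + 1),
      q j * if j ≤ t then ((n + (t - j)).choose n : ℚ) else 0)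
    {P : ℚ[X]} (hP : P.natDegree = n) (hP' : 0 < P.leadingCoeff) {N : ℕ}
    (hN : ∀ t ≥ N, (h t : ℚ) = P.eval (t : ℚ)) : IsHilb h n (n + 1 - s) P := by
  set R : ℚ[X] := ∑ j ∈ Finset.range (s + 1), C (q j) * (bin n).comp (X - C (j : ℚ)) with hR
  have hRe : ∀ x : ℚ, R.eval x = ∑ j ∈ Finset.range (s + 1), q j * (bin n).eval (x - j) := by
    intro x
    rw [hR, eval_finsetSum]
    refine Finset.sum_congr rfl fun j _ => ?_
    rw [eval_mul, eval_C, eval_comp, eval_sub, eval_X, eval_C]
  have hpos : ∀ t : ℕ, R.eval (t : ℚ) = h t := by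
    intro t
    rw [hRe, hh]
    refine Finset.sum_congr rfl fun j hj => ?_
    rw [Finset.mem_range] at hj
    congr 1
    split_ifs with hjt
    · rw [← bin_nat, Nat.cast_sub hjt]
    · have h1 : (t : ℚ) - j = -((j - t : ℕ) : ℚ) := by
        rw [Nat.cast_sub (by omega)]
        ring
      rw [h1, bin_neg n _ (by omega) (by omega)]
  have hRP : R = P := by
    apply eq_of_infinite_eval_eq
    refine ((Set.Ici_infinite N).image (Nat.cast_injective (R := ℚ)).injOn).mono ?_
    rintro x ⟨t, ht, rfl⟩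
    show R.eval (t : ℚ) = P.eval (t : ℚ)
    rw [hpos, hN t ht]
  have hr : ((n + 1 - s : ℕ) : ℚ) = (n : ℚ) + 1 - s := by
    rw [Nat.cast_sub (by omega)]
    push_cast
    ring
  refine ⟨hP, hP', fun m => by rw [← hRP, hpos], fun j h0 hj => ?_, ?_⟩
  · rw [← hRP, hRe]
    refine Finset.sum_eq_zero fun i hi => ?_
    rw [Finset.mem_range] at hi
    have h1 : (-(j : ℚ)) - i = -((j + i : ℕ) : ℚ) := by
      push_cast
      ring
    rw [h1, bin_neg n _ (by omega) (by omega), mul_zero]
  · rw [← hRP]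
    refine Polynomial.funext fun x => ?_
    rw [eval_comp, eval_mul, eval_C, eval_sub, eval_neg, eval_C, eval_X, hRe, hRe, hr,
      ← Finset.sum_range_reflect, Finset.mul_sum]
    refine Finset.sum_congr rfl fun j hj => ?_
    rw [Finset.mem_range] at hj
    have h1 : s + 1 - 1 - j = s - j := by omega
    rw [h1, ← hq j (by omega)]
    have h2 : -((n : ℚ) + 1 - s) - x - ((s - j : ℕ) : ℚ) = -((n : ℚ) + 1) - (x - j) := by
      rw [Nat.cast_sub (by omega)]
      ring
    rw [h2, bin_symm]
    ring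

/-- the difference of a polynomial has smaller degree -/
lemma degree_diff (P : ℚ[X]) (m : ℕ) (hP : P.degree < (m + 1 : ℕ)) :
    (P - P.comp (X - C 1)).degree < m := by
  by_cases hP0 : P = 0
  · rw [hP0, zero_comp, sub_zero, degree_zero]
    exact WithBot.bot_lt_coe m
  have hnd : (X - C (1 : ℚ)).natDegree = 1 := natDegree_X_sub_C _
  have h1 : (P.comp (X - C 1)).natDegree = P.natDegree := by
    rw [natDegree_comp, hnd, mul_one]
  have h2 : (P.comp (X - C 1)).leadingCoeff = P.leadingCoeff := by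
    rw [leadingCoeff_comp (by rw [hnd]; exact one_ne_zero), leadingCoeff_X_sub_C, one_pow, mul_one]
  have h3 : P.comp (X - C 1) ≠ 0 := by
    intro h
    rw [h, leadingCoeff_zero] at h2
    exact hP0 (leadingCoeff_eq_zero.1 h2.symm)
  have h4 : P.degree = (P.comp (X - C 1)).degree := by
    rw [degree_eq_natDegree hP0, degree_eq_natDegree h3, h1]
  have h5 := degree_sub_lt_left h4 hP0 h2.symm
  rw [degree_eq_natDegree hP0] at h5 hP
  have h6 : P.natDegree < m + 1 := by exact_mod_cast hP
  exact h5.trans_le (by exact_mod_cast Nat.lt_succ_iff.1 h6)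

/-- the numerator: `(1 - t) ^ m H` has almost all coefficients zero if the coefficients of `H` are
eventually the values of a polynomial of degree less than `m` -/
lemma eventually_zero (m : ℕ) : ∀ (f : ℕ → ℚ) (P : ℚ[X]) (N : ℕ), P.degree < m →
    (∀ t ≥ N, f t = P.eval (t : ℚ)) →
    ∃ N', ∀ t ≥ N', PowerSeries.coeff t (PowerSeries.mk f * (1 - PowerSeries.X) ^ m) = 0 := by
  induction m with
  | zero =>
    intro f P N hP hf
    have hP0 : P = 0 := by
      rw [← degree_eq_bot]
      exact Nat.WithBot.lt_zero_iff.1 (by exact_mod_cast hP)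
    refine ⟨N, fun t ht => ?_⟩
    rw [pow_zero, mul_one, PowerSeries.coeff_mk, hf t ht, hP0, eval_zero]
  | succ m ih =>
    intro f P N hP hf
    have key : PowerSeries.mk f * (1 - PowerSeries.X) =
        PowerSeries.mk fun t => f t - if t = 0 then 0 else f (t - 1) := by
      ext t
      rw [mul_sub, mul_one, map_sub, PowerSeries.coeff_mk, PowerSeries.coeff_mk]
      congr 1
      cases t with
      | zero => simp
      | succ t => rw [PowerSeries.coeff_succ_mul_X, PowerSeries.coeff_mk]; simp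
    obtain ⟨N', hN'⟩ := ih (fun t => f t - if t = 0 then 0 else f (t - 1))
      (P - P.comp (X - C 1)) (N + 1) (degree_diff P m hP) (fun t ht => by
        have h1 : t ≠ 0 := by omega
        simp only [h1, if_false]
        rw [hf t (by omega), hf (t - 1) (by omega), eval_sub, eval_comp, eval_sub, eval_X, eval_C,
          Nat.cast_sub (by omega), Nat.cast_one])
    refine ⟨N', fun t ht => ?_⟩
    rw [pow_succ', ← mul_assoc, key]
    exact hN' t ht

lemma reverse_one_sub_X_pow (d : ℕ) (hd : 0 < d) :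
    (1 - X ^ d : ℚ[X]).reverse = -(1 - X ^ d) := by
  have h1 : (1 - X ^ d : ℚ[X]) = -(X ^ d - 1) := by ring
  have hnd : (X ^ d - 1 : ℚ[X]).natDegree = d := by
    have := natDegree_X_pow_sub_C (n := d) (r := (1 : ℚ))
    rwa [C_1] at this
  have hnd' : (1 - X ^ d : ℚ[X]).natDegree = d := by rw [h1, natDegree_neg, hnd]
  ext j
  rw [coeff_reverse, hnd']
  simp only [coeff_neg, coeff_sub, coeff_one, coeff_X_pow]
  rcases le_or_gt j d with hj | hj
  · rw [revAt_le hj]
    rcases Nat.eq_zero_or_pos j with h0 | h0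
    · subst h0
      simp [hd.ne, hd.ne']
    · rcases eq_or_ne j d with h2 | h2
      · subst h2
        simp [h0.ne, h0.ne']
      · have h3 : d - j ≠ 0 := by omega
        have h4 : d - j ≠ d := by omega
        simp [h3, h4, h0.ne', h2]
  · rw [revAt_eq_self_of_lt hj]
    have h2 : j ≠ 0 := by omega
    have h3 : j ≠ d := by omega
    simp [h2, h3]

/-- **From the numerator of an Artinian reduction to the Hilbert polynomial.** Let `H` be the Hilbert
series, `H ∏ (1 - t ^ d_i) = A` with a polynomial `A` equal to its reversal, `n + 1` the number of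
factors, and suppose that `H` is eventually a polynomial of degree `n`. -/
theorem isHilb_of_reduction {h : ℕ → ℕ} {n σ : ℕ} (d : Fin (n + 1) → ℕ) (hd : ∀ i, 0 < d i)
    (A : ℚ[X]) (hA : A.natDegree = σ) (hArev : A.reverse = A) (hA0 : A ≠ 0)
    (hH : PowerSeries.mk (fun t => (h t : ℚ)) * ∏ i, (1 - PowerSeries.X ^ d i) =
      (A : PowerSeries ℚ))
    {P : ℚ[X]} (hP : P.natDegree = n) (hP' : 0 < P.leadingCoeff) {N : ℕ}
    (hN : ∀ t ≥ N, (h t : ℚ) = P.eval (t : ℚ)) (ha : σ < ∑ i, d i) :
    IsHilb h n (∑ i, d i - σ) P := by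
  have hP0 : P ≠ 0 := by
    rintro rfl
    simp at hP'
  -- the numerator
  obtain ⟨N', hN'⟩ := eventually_zero (n + 1) (fun t => (h t : ℚ)) P N (by
    rw [degree_eq_natDegree hP0, hP]
    exact_mod_cast Nat.lt_succ_self n) hN
  set φ : PowerSeries ℚ := PowerSeries.mk (fun t => (h t : ℚ)) * (1 - PowerSeries.X) ^ (n + 1)
    with hφ
  set Q : ℚ[X] := PowerSeries.trunc N' φ with hQ
  have hQφ : (Q : PowerSeries ℚ) = φ := by
    ext t
    rw [Polynomial.coeff_coe, hQ, PowerSeries.coeff_trunc]
    split_ifs with ht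
    · rfl
    · exact (hN' t (by omega)).symm
  have hprod : (((∏ i, (1 - X ^ d i) : ℚ[X])) : PowerSeries ℚ) =
      ∏ i, (1 - PowerSeries.X ^ d i) := by
    rw [← Polynomial.coeToPowerSeries.ringHom_apply, map_prod]
    refine Finset.prod_congr rfl fun i _ => ?_
    simp
  have hrel : Q * ∏ i, (1 - X ^ d i) = A * (1 - X) ^ (n + 1) := by
    apply Polynomial.coe_injective ℚ
    push_cast
    rw [hQφ, hprod, hφ, ← hH]
    ring
  have hD0 : ∀ i, (1 - X ^ d i : ℚ[X]) ≠ 0 := by
    intro i h1
    have h2 := congrArg (Polynomial.coeff · 0) h1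
    simp [coeff_X_pow, (hd i).ne] at h2
  have hDn : ∀ i, (1 - X ^ d i : ℚ[X]).natDegree = d i := by
    intro i
    have h1 : (1 - X ^ d i : ℚ[X]) = -(X ^ d i - 1) := by ring
    have := natDegree_X_pow_sub_C (n := d i) (r := (1 : ℚ))
    rw [C_1] at this
    rw [h1, natDegree_neg, this]
  have h1X : (1 - X : ℚ[X]) ≠ 0 := by
    intro h1
    have h2 := congrArg (Polynomial.coeff · 0) h1
    simp at h2
  have h1Xn : (1 - X : ℚ[X]).natDegree = 1 := by
    have h1 : (1 - X : ℚ[X]) = -(X - C 1) := by rw [C_1]; ring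
    rw [h1, natDegree_neg, natDegree_X_sub_C]
  have hpr0 : (∏ i, (1 - X ^ d i) : ℚ[X]) ≠ 0 := Finset.prod_ne_zero_iff.2 fun i _ => hD0 i
  have hQ0 : Q ≠ 0 := by
    rintro h1
    rw [h1, zero_mul] at hrel
    exact (mul_ne_zero hA0 (pow_ne_zero _ h1X)) hrel.symm
  have hdegQ : Q.natDegree + ∑ i, d i = σ + (n + 1) := by
    have h2 := congrArg Polynomial.natDegree hrel
    rw [natDegree_mul hQ0 hpr0, natDegree_mul hA0 (pow_ne_zero _ h1X), natDegree_pow, h1Xn,
      mul_one, natDegree_prod _ _ fun i _ => hD0 i, hA] at h2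
    rw [← h2]
    congr 1
    exact Finset.sum_congr rfl fun i _ => (hDn i).symm
  have hrevprod : ∀ s : Finset (Fin (n + 1)), (∏ i ∈ s, (1 - X ^ d i) : ℚ[X]).reverse =
      (-1) ^ s.card * ∏ i ∈ s, (1 - X ^ d i) := by
    intro s
    induction s using Finset.induction_on with
    | empty =>
      rw [Finset.prod_empty, Finset.card_empty, pow_zero, one_mul, ← C_1, reverse_C]
    | insert b s hb ih =>
      rw [Finset.prod_insert hb, reverse_mul_of_domain, ih, reverse_one_sub_X_pow _ (hd b),
        Finset.card_insert_of_notMem hb, pow_succ]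
      ring
  have hrevpow : ∀ m : ℕ, ((1 - X : ℚ[X]) ^ m).reverse = (-1) ^ m * (1 - X) ^ m := by
    intro m
    induction m with
    | zero => rw [pow_zero, pow_zero, one_mul, ← C_1, reverse_C]
    | succ m ih =>
      have h3 := reverse_one_sub_X_pow 1 one_pos
      rw [pow_one] at h3
      rw [pow_succ, reverse_mul_of_domain, ih, h3, pow_succ]
      ring
  have hQrev : Q.reverse = Q := by
    have h2 := congrArg Polynomial.reverse hrel
    rw [reverse_mul_of_domain, reverse_mul_of_domain, hArev, hrevprod, hrevpow,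
      Finset.card_univ, Fintype.card_fin] at h2
    have h3 : ((-1 : ℚ[X]) ^ (n + 1)) ≠ 0 := pow_ne_zero _ (by norm_num)
    have h4 : (-1 : ℚ[X]) ^ (n + 1) * (Q.reverse * ∏ i, (1 - X ^ d i)) =
        (-1) ^ (n + 1) * (Q * ∏ i, (1 - X ^ d i)) := by
      rw [hrel]
      linear_combination h2
    exact mul_right_cancel₀ hpr0 (mul_left_cancel₀ h3 h4)
  have hs : Q.natDegree ≤ n := by omega
  have hr : ∑ i, d i - σ = n + 1 - Q.natDegree := by omega
  rw [hr]
  refine isHilb_of_series hs Q.coeff (fun j hj => ?_) (fun t => ?_) hP hP' hN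
  · conv_lhs => rw [← hQrev]
    rw [coeff_reverse, revAt_le hj]
  · -- the coefficients of `Q / (1 - t) ^ (n + 1)`
    have h2 : PowerSeries.mk (fun t => (h t : ℚ)) =
        (Q : PowerSeries ℚ) * PowerSeries.mk fun k => ((n + k).choose n : ℚ) := by
      have h3 := PowerSeries.mk_add_choose_mul_one_sub_pow_eq_one ℚ n
      rw [hQφ, hφ, mul_assoc, mul_comm ((1 - PowerSeries.X) ^ (n + 1)), h3, mul_one]
    have h4 := congrArg (PowerSeries.coeff t) h2
    rw [PowerSeries.coeff_mk, PowerSeries.coeff_mul,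
      Finset.Nat.sum_antidiagonal_eq_sum_range_succ_mk] at h4
    rw [h4]
    simp only [Polynomial.coeff_coe, PowerSeries.coeff_mk]
    -- compare the ranges
    have hM : ∀ M, t + 1 ≤ M → Q.natDegree + 1 ≤ M →
        ∑ j ∈ Finset.range (t + 1), Q.coeff j * ((n + (t - j)).choose n : ℚ) =
          ∑ j ∈ Finset.range (Q.natDegree + 1), Q.coeff j *
            if j ≤ t then ((n + (t - j)).choose n : ℚ) else 0 := by
      intro M h6 h7
      calc ∑ j ∈ Finset.range (t + 1), Q.coeff j * ((n + (t - j)).choose n : ℚ)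
          = ∑ j ∈ Finset.range (t + 1), Q.coeff j *
            (if j ≤ t then ((n + (t - j)).choose n : ℚ) else 0) := by
            refine Finset.sum_congr rfl fun j hj => ?_
            rw [Finset.mem_range] at hj
            rw [if_pos (by omega)]
        _ = ∑ j ∈ Finset.range M, Q.coeff j *
            (if j ≤ t then ((n + (t - j)).choose n : ℚ) else 0) := by
            refine Finset.sum_subset (Finset.range_subset_range.2 h6) fun j _ hj => ?_
            rw [Finset.mem_range] at hj
            rw [if_neg (by omega), mul_zero]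
        _ = _ := by
            refine (Finset.sum_subset (Finset.range_subset_range.2 h7) fun j _ hj => ?_).symm
            rw [Finset.mem_range] at hj
            rw [coeff_eq_zero_of_natDegree_lt (by omega), zero_mul]
    exact hM (max (t + 1) (Q.natDegree + 1)) (le_max_left _ _) (le_max_right _ _)

end Pool.Agent.R166.GS
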